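import Pool.Agent.Helper67_WKS.Quot

/-!
# MP_7d2497_an: averages of the translation semigroup of the weighted half-line space
-/

namespace Pool.Agent.WK.H18

open MeasureTheory Filter Topology Complex
open Pool.Agent.H78E (IsWeight LInf LInfPos L1 X Y)
open Pool.Agent.WKS

noncomputable section

variable {φ : ℝ → ℝ}

/-- the density of the average over `(0, L]`, modulated at `x` -/
def kap (L x : ℝ) : ℝ → ℂ :=
  (Set.Iic L).indicator (fun s : ℝ => ((1 / L : ℝ) : ℂ) * Complex.exp (Complex.I * (s : ℂ) * (x : ℂ)))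

theorem norm_exp_I (s x : ℝ) : ‖Complex.exp (Complex.I * (s : ℂ) * (x : ℂ))‖ = 1 := by
  rw [Complex.norm_exp]
  simp

theorem kap_GI (hφ : IsWeight φ) (L x : ℝ) : GI φ (kap L x) := by
  obtain ⟨C, hC0, hC⟩ := local_bound hφ L
  have hm : Measurable (kap L x) := by
    unfold kap
    refine Measurable.indicator ?_ measurableSet_Iic
    exact Continuous.measurable (by fun_prop)
  refine ⟨hm.aestronglyMeasurable, ?_⟩
  have h1 : IntegrableOn ((Set.Iic L).indicator (fun _ : ℝ => C * ‖((1 / L : ℝ) : ℂ)‖))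
      (Set.Ioi 0) volume := by
    rw [integrableOn_indicator_iff measurableSet_Iic]
    refine (integrableOn_const (μ := volume) (s := Set.Ioc 0 L) (by simp)).mono_set ?_
    rintro s ⟨h1, h2⟩
    exact ⟨h2, h1⟩
  refine Integrable.mono' h1 (hφ.meas.aestronglyMeasurable.mul hm.aestronglyMeasurable.norm) ?_
  filter_upwards [ae_restrict_mem measurableSet_Ioi] with s hs
  have hs0 : 0 < s := hs
  rw [norm_mul, norm_norm, Real.norm_of_nonneg (one_le_max_zero hφ s).le]
  unfold kap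
  by_cases h : s ≤ L
  · rw [Set.indicator_of_mem (show s ∈ Set.Iic L from h),
      Set.indicator_of_mem (show s ∈ Set.Iic L from h), norm_mul, norm_exp_I, mul_one]
    exact mul_le_mul_of_nonneg_right (hC s (by rw [abs_of_pos hs0]; exact h)) (norm_nonneg _)
  · rw [Set.indicator_of_notMem (show s ∉ Set.Iic L from h),
      Set.indicator_of_notMem (show s ∉ Set.Iic L from h), norm_zero, mul_zero]

/-- the average of the translations over `(0, L]`, modulated at `x` -/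
def mn (hφ : IsWeight φ) (L x : ℝ) : Y →L[ℂ] Y := (WS hφ).pi (kap L x)

theorem mn_YW (hφ : IsWeight φ) (L x : ℝ) {s : ℝ} (hs : 0 ≤ s) (v : Y) :
    mn hφ L x (YW φ s v) = YW φ s (mn hφ L x v) := by
  refine ((WS hφ).pi_commute (WS hφ) (YW φ s) ?_ (kap L x) v).symm
  intro r hr w
  change YW φ s (YW φ r w) = YW φ r (YW φ s w)
  rw [← YW_add hφ hs hr, ← YW_add hφ hr hs, add_comm]

theorem mn_apply (hφ : IsWeight φ) {L : ℝ} (hL : 0 ≤ L) (x : ℝ) (v : Y) :
    mn hφ L x v = ((1 / L : ℝ) : ℂ) •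
      ∫ s in (0 : ℝ)..L, Complex.exp (Complex.I * (s : ℂ) * (x : ℂ)) • YW φ (max s 0) v := by
  have h1 := (WS hφ).pi_apply (kap_GI hφ L x) v
  unfold mn
  rw [h1, intervalIntegral.integral_of_le hL, ← integral_smul]
  have e : ∀ s ∈ Set.Ioi (0 : ℝ), kap L x s • (WS hφ).T s v =
      (Set.Iic L).indicator (fun s : ℝ => ((1 / L : ℝ) : ℂ) •
        (Complex.exp (Complex.I * (s : ℂ) * (x : ℂ)) • YW φ (max s 0) v)) s := by
    intro s hs
    unfold kap
    by_cases h : s ∈ Set.Iic L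
    · rw [Set.indicator_of_mem h, Set.indicator_of_mem h, smul_smul,
        max_eq_left (le_of_lt (Set.mem_Ioi.mp hs))]
      rfl
    · rw [Set.indicator_of_notMem h, Set.indicator_of_notMem h, zero_smul]
  refine (setIntegral_congr_fun measurableSet_Ioi e).trans ?_
  rw [setIntegral_indicator measurableSet_Iic]
  rfl

theorem gcont (hφ : IsWeight φ) (x : ℝ) (v : Y) : Continuous (fun s : ℝ =>
    Complex.exp (Complex.I * (s : ℂ) * (x : ℂ)) • YW φ (max s 0) v) := by
  have h1 : Continuous (fun s : ℝ => Complex.exp (Complex.I * (s : ℂ) * (x : ℂ))) := by fun_prop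
  exact h1.smul (YW_continuous hφ v)

theorem gnorm (hφ : IsWeight φ) (x : ℝ) (v : Y) {s : ℝ} (hs : 0 ≤ s) :
    ‖Complex.exp (Complex.I * (s : ℂ) * (x : ℂ)) • YW φ (max s 0) v‖ ≤ φ s * ‖v‖ := by
  rw [norm_smul, norm_exp_I, one_mul, max_eq_left hs]
  exact YW_norm hφ hs v

theorem mn_norm (hφ : IsWeight φ) {L C : ℝ} (hL : 0 < L) (hC : ∀ t, 0 ≤ t → t ≤ L → φ t ≤ C)
    (x : ℝ) (v : Y) : ‖mn hφ L x v‖ ≤ C * ‖v‖ := by
  rw [mn_apply hφ hL.le, norm_smul]
  have h1 : ‖∫ s in (0 : ℝ)..L, Complex.exp (Complex.I * (s : ℂ) * (x : ℂ)) • YW φ (max s 0) v‖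
      ≤ C * ‖v‖ * |L - 0| := by
    apply intervalIntegral.norm_integral_le_of_norm_le_const
    intro s hs
    rw [Set.uIoc_of_le hL.le] at hs
    exact (gnorm hφ x v hs.1.le).trans
      (mul_le_mul_of_nonneg_right (hC s hs.1.le hs.2) (norm_nonneg _))
  have h2 : ‖((1 / L : ℝ) : ℂ)‖ = 1 / L := by
    rw [Complex.norm_real, Real.norm_of_nonneg (by positivity)]
  rw [h2]
  rw [sub_zero, abs_of_pos hL] at h1
  calc 1 / L * ‖∫ s in (0 : ℝ)..L, Complex.exp (Complex.I * (s : ℂ) * (x : ℂ)) •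
        YW φ (max s 0) v‖ ≤ 1 / L * (C * ‖v‖ * L) :=
        mul_le_mul_of_nonneg_left h1 (by positivity)
    _ = C * ‖v‖ := by
        field_simp

/-- the difference `v - exp(iax) T_a v` -/
def df (φ : ℝ → ℝ) (x a : ℝ) (v : Y) : Y :=
  v - Complex.exp (Complex.I * (a : ℂ) * (x : ℂ)) • YW φ a v

theorem mn_df (hφ : IsWeight φ) {L C₁ : ℝ} (hL : 0 < L)
    (hC : ∀ t, 0 ≤ t → t ≤ 1 → φ t ≤ C₁) (x : ℝ) {a : ℝ} (ha : 0 ≤ a) (ha1 : a ≤ 1) (v : Y) :
    ‖mn hφ L x (df φ x a v)‖ ≤ a * (C₁ * (1 + φ L) / L) * ‖v‖ := by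
  set g : ℝ → Y := fun s => Complex.exp (Complex.I * (s : ℂ) * (x : ℂ)) • YW φ (max s 0) v with hg
  have hgc : Continuous g := gcont hφ x v
  have h1 : mn hφ L x (df φ x a v) = ((1 / L : ℝ) : ℂ) •
      ((∫ s in (0 : ℝ)..L, g s) - ∫ s in (0 : ℝ)..L, g (s + a)) := by
    have h0 : ∫ s in (0 : ℝ)..L, g (s + a) = Complex.exp (Complex.I * (a : ℂ) * (x : ℂ)) •
        ∫ s in (0 : ℝ)..L, Complex.exp (Complex.I * (s : ℂ) * (x : ℂ)) •
          YW φ (max s 0) (YW φ a v) := by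
      rw [← intervalIntegral.integral_smul]
      apply intervalIntegral.integral_congr
      intro s hs
      rw [Set.uIcc_of_le hL.le] at hs
      simp only [hg]
      rw [smul_smul, ← Complex.exp_add, max_eq_left hs.1, max_eq_left (by linarith [hs.1]),
        YW_add hφ hs.1 ha]
      congr 2
      push_cast
      ring
    unfold df
    rw [map_sub, map_smul, smul_sub, mn_apply hφ hL.le x v, mn_apply hφ hL.le x (YW φ a v),
      smul_comm, h0]
  have h2 : (∫ s in (0 : ℝ)..L, g s) - ∫ s in (0 : ℝ)..L, g (s + a) =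
      (∫ s in (0 : ℝ)..a, g s) - ∫ s in L..(L + a), g s := by
    rw [intervalIntegral.integral_comp_add_right, zero_add]
    exact intervalIntegral.integral_interval_sub_interval_comm
      (hgc.intervalIntegrable _ _) (hgc.intervalIntegrable _ _) (hgc.intervalIntegrable _ _)
  have h3 : ‖∫ s in (0 : ℝ)..a, g s‖ ≤ C₁ * ‖v‖ * a := by
    have := intervalIntegral.norm_integral_le_of_norm_le_const (a := (0 : ℝ)) (b := a)
      (C := C₁ * ‖v‖) (f := g) (by
        intro s hs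
        rw [Set.uIoc_of_le ha] at hs
        exact (gnorm hφ x v hs.1.le).trans
          (mul_le_mul_of_nonneg_right (hC s hs.1.le (hs.2.trans ha1)) (norm_nonneg _)))
    rwa [sub_zero, abs_of_nonneg ha] at this
  have h4 : ‖∫ s in L..(L + a), g s‖ ≤ C₁ * φ L * ‖v‖ * a := by
    have := intervalIntegral.norm_integral_le_of_norm_le_const (a := L) (b := L + a)
      (C := C₁ * φ L * ‖v‖) (f := g) (by
        intro s hs
        rw [Set.uIoc_of_le (by linarith)] at hs
        refine (gnorm hφ x v (by linarith [hs.1])).trans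
          (mul_le_mul_of_nonneg_right ?_ (norm_nonneg _))
        have h5 := hφ.submul (s - L) L
        rw [sub_add_cancel] at h5
        refine h5.trans (mul_le_mul_of_nonneg_right (hC _ (by linarith [hs.1])
          (by linarith [hs.2])) (one_le_max_zero hφ L).le))
    rwa [add_sub_cancel_left, abs_of_nonneg ha] at this
  rw [h1, h2, norm_smul, Complex.norm_real, Real.norm_of_nonneg (by positivity)]
  calc 1 / L * ‖(∫ s in (0 : ℝ)..a, g s) - ∫ s in L..(L + a), g s‖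
      ≤ 1 / L * (C₁ * ‖v‖ * a + C₁ * φ L * ‖v‖ * a) :=
        mul_le_mul_of_nonneg_left ((norm_sub_le _ _).trans (add_le_add h3 h4)) (by positivity)
    _ = a * (C₁ * (1 + φ L) / L) * ‖v‖ := by ring

/-- the main estimate -/
theorem mn_df' (hφ : IsWeight φ) {L C₁ C : ℝ} (hL : 0 < L)
    (hC₁ : ∀ t, 0 ≤ t → t ≤ 1 → φ t ≤ C₁) (hC : ∀ t, 0 ≤ t → t ≤ L → φ t ≤ C) (x x₀ : ℝ)
    {a : ℝ} (ha : 0 ≤ a) (ha1 : a ≤ 1) (v : Y) :
    ‖mn hφ L x (df φ x₀ a v)‖ ≤ a * (C₁ * (1 + φ L) / L + C * C₁ * |x - x₀|) * ‖v‖ := by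
  have hC0 : 0 ≤ C := (one_le_max_zero hφ 0).le.trans (hC 0 le_rfl hL.le)
  have h1 : df φ x₀ a v = df φ x a v +
      (Complex.exp (Complex.I * (a : ℂ) * (x : ℂ)) -
        Complex.exp (Complex.I * (a : ℂ) * (x₀ : ℂ))) • YW φ a v := by
    unfold df
    rw [sub_smul]
    abel
  have h2 : ‖Complex.exp (Complex.I * (a : ℂ) * (x : ℂ)) -
      Complex.exp (Complex.I * (a : ℂ) * (x₀ : ℂ))‖ ≤ a * |x - x₀| := by
    have e : Complex.exp (Complex.I * (a : ℂ) * (x : ℂ)) -
        Complex.exp (Complex.I * (a : ℂ) * (x₀ : ℂ)) =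
        Complex.exp (Complex.I * (a : ℂ) * (x₀ : ℂ)) *
          (Complex.exp (Complex.I * ((a * (x - x₀) : ℝ) : ℂ)) - 1) := by
      rw [mul_sub, ← Complex.exp_add, mul_one]
      congr 2
      push_cast
      ring
    rw [e, norm_mul, norm_exp_I, one_mul]
    refine (Real.norm_exp_I_mul_ofReal_sub_one_le).trans ?_
    rw [Real.norm_eq_abs, abs_mul, abs_of_nonneg ha]
  rw [h1, map_add]
  refine (norm_add_le _ _).trans ?_
  have h3 := mn_df hφ hL hC₁ x ha ha1 v
  have h4 : ‖mn hφ L x ((Complex.exp (Complex.I * (a : ℂ) * (x : ℂ)) -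
      Complex.exp (Complex.I * (a : ℂ) * (x₀ : ℂ))) • YW φ a v)‖ ≤
      C * ((a * |x - x₀|) * (C₁ * ‖v‖)) := by
    refine (mn_norm hφ hL hC x _).trans (mul_le_mul_of_nonneg_left ?_ hC0)
    rw [norm_smul]
    refine mul_le_mul h2 ?_ (norm_nonneg _) (by positivity)
    exact (YW_norm hφ ha v).trans (mul_le_mul_of_nonneg_right (hC₁ a ha ha1) (norm_nonneg _))
  calc _ ≤ a * (C₁ * (1 + φ L) / L) * ‖v‖ + C * ((a * |x - x₀|) * (C₁ * ‖v‖)) := add_le_add h3 h4
    _ = _ := by ring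

/-- the average at `x` acts as the identity on the character `x` -/
theorem chi_mn (hφ : IsWeight φ) {L : ℝ} (hL : 0 < L) (x : ℝ) (v : Y) :
    chiW φ (x : ℂ) (mn hφ L x v) = chiW φ (x : ℂ) v := by
  have h1 := chiW_pi hφ (z := (x : ℂ)) (by simp) v (kap_GI hφ L x)
  unfold mn
  rw [h1]
  have h2 : ∫ t in Set.Ioi (0 : ℝ), kap L x t *
      Complex.exp (-(Complex.I * (t : ℂ) * (x : ℂ))) = 1 := by
    have e : ∀ t ∈ Set.Ioi (0 : ℝ), kap L x t * Complex.exp (-(Complex.I * (t : ℂ) * (x : ℂ))) =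
        (Set.Iic L).indicator (fun _ => ((1 / L : ℝ) : ℂ)) t := by
      intro t _
      unfold kap
      by_cases h : t ∈ Set.Iic L
      · rw [Set.indicator_of_mem h, Set.indicator_of_mem h, mul_assoc, ← Complex.exp_add,
          add_neg_cancel, Complex.exp_zero, mul_one]
      · rw [Set.indicator_of_notMem h, Set.indicator_of_notMem h, zero_mul]
    rw [setIntegral_congr_fun measurableSet_Ioi e, setIntegral_indicator measurableSet_Iic]
    have e2 : Set.Ioi (0 : ℝ) ∩ Set.Iic L = Set.Ioc 0 L := rfl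
    rw [e2, setIntegral_const, Real.volume_real_Ioc_of_le hL.le, sub_zero, Complex.real_smul,
      ← Complex.ofReal_mul, mul_one_div_cancel hL.ne', Complex.ofReal_one]
  rw [h2, one_mul]

/-- the average preserves the kernels of the characters -/
theorem chi_mn_zero (hφ : IsWeight φ) (L x : ℝ) {z : ℂ} (hz : z.im ≤ 0) {v : Y}
    (hv : chiW φ z v = 0) : chiW φ z (mn hφ L x v) = 0 := by
  unfold mn
  rw [chiW_pi hφ hz v (kap_GI hφ L x), hv, mul_zero]

theorem chi_df (hφ : IsWeight φ) {z : ℂ} (hz : z.im ≤ 0) (x : ℝ) {a : ℝ} (ha : 0 ≤ a) (v : Y) :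
    chiW φ z (df φ x a v) =
      (1 - Complex.exp (-(Complex.I * (a : ℂ) * (z - (x : ℂ))))) * chiW φ z v := by
  unfold df
  rw [map_sub, map_smul, chiW_YW hφ hz ha, smul_eq_mul, ← mul_assoc, ← Complex.exp_add]
  rw [sub_mul, one_mul]
  congr 3
  ring

end

end Pool.Agent.WK.H18
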