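import Pool.Agent.Helper18_WK.Mean

/-!
# MP_7d2497_an: fast sequences, the construction and the infinite products
-/

namespace Pool.Agent.WK.H18

open MeasureTheory Filter Topology Complex
open Pool.Agent.H78E (IsWeight LInf LInfPos L1 X Y)
open Pool.Agent.WKS

noncomputable section

variable {φ : ℝ → ℝ}

/-- one step of the construction -/
theorem step (hφ : IsWeight φ) (hu : ¬ ∃ C : ℝ, ∀ t : ℝ, 0 ≤ t → t ≤ C * φ t) {E : Set ℝ} {x₀ : ℝ}
    (hE : ∀ r : ℝ, 0 < r → ∃ x ∈ E, x ≠ x₀ ∧ |x - x₀| < r) (n : ℕ) {B r : ℝ} (hB : 1 ≤ B)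
    (hr : 0 < r) : ∃ L x C : ℝ, 0 < L ∧ x ∈ E ∧ x ≠ x₀ ∧ |x - x₀| < r ∧ 0 ≤ C ∧
      (∀ v : Y, ‖mn hφ L x v‖ ≤ C * ‖v‖) ∧
      ∀ a : ℝ, 0 ≤ a → a ≤ 1 → ∀ v : Y, B * ‖mn hφ L x (df φ x₀ a v)‖ ≤ (1 / 2) ^ n * ‖v‖ := by
  obtain ⟨C₁, hC₁0, hC₁⟩ := local_bound hφ 1
  have hC₁' : ∀ t, 0 ≤ t → t ≤ 1 → φ t ≤ C₁ := fun t h0 h1 => hC₁ t (by rw [abs_of_nonneg h0]; exact h1)
  set δ : ℝ := (1 / 2) ^ n / (4 * (C₁ * B)) with hδ
  have hδ0 : 0 < δ := by positivity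
  -- choose `L`
  have h1 : ∃ L : ℝ, 0 ≤ L ∧ (1 / δ) * φ L < L := by
    by_contra hcon
    apply hu
    refine ⟨1 / δ, fun t ht => ?_⟩
    by_contra h2
    exact hcon ⟨t, ht, not_le.mp h2⟩
  obtain ⟨L, hL0, hL⟩ := h1
  have hφL := hφ.one_le L
  have hLpos : 0 < L := lt_of_le_of_lt (by positivity) hL
  have hL2 : φ L / L ≤ δ := by
    rw [div_le_iff₀ hLpos]
    have h3 : δ * ((1 / δ) * φ L) ≤ δ * L := mul_le_mul_of_nonneg_left hL.le hδ0.le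
    rwa [← mul_assoc, mul_one_div_cancel hδ0.ne', one_mul] at h3
  have hL3 : (1 + φ L) / L ≤ 2 * δ := by
    calc (1 + φ L) / L ≤ (φ L + φ L) / L := by gcongr
      _ = 2 * (φ L / L) := by ring
      _ ≤ 2 * δ := by linarith
  -- the bound on `[0, L]`
  obtain ⟨C, hC0, hC⟩ := local_bound hφ L
  have hC' : ∀ t, 0 ≤ t → t ≤ L → φ t ≤ C := fun t h0 h1 => hC t (by rw [abs_of_nonneg h0]; exact h1)
  -- choose `x`
  set r' : ℝ := min r (2 * δ / C) with hr'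
  have hr'0 : 0 < r' := lt_min hr (by positivity)
  obtain ⟨x, hxE, hxne, hx⟩ := hE r' hr'0
  refine ⟨L, x, C, hLpos, hxE, hxne, hx.trans_le (min_le_left _ _), hC0.le,
    fun v => mn_norm hφ hLpos hC' x v, ?_⟩
  intro a ha ha1 v
  have h5 := mn_df' hφ hLpos hC₁' hC' x x₀ ha ha1 v
  have h6 : C * C₁ * |x - x₀| ≤ C₁ * (2 * δ) := by
    have h7 : |x - x₀| ≤ 2 * δ / C := hx.le.trans (min_le_right _ _)
    calc C * C₁ * |x - x₀| ≤ C * C₁ * (2 * δ / C) :=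
          mul_le_mul_of_nonneg_left h7 (by positivity)
      _ = C₁ * (2 * δ) := by field_simp
  have h7 : C₁ * (1 + φ L) / L ≤ C₁ * (2 * δ) := by
    rw [mul_div_assoc]
    exact mul_le_mul_of_nonneg_left hL3 hC₁0.le
  calc B * ‖mn hφ L x (df φ x₀ a v)‖
      ≤ B * (a * (C₁ * (1 + φ L) / L + C * C₁ * |x - x₀|) * ‖v‖) :=
        mul_le_mul_of_nonneg_left h5 (by linarith)
    _ ≤ B * (1 * (C₁ * (2 * δ) + C₁ * (2 * δ)) * ‖v‖) := by
        refine mul_le_mul_of_nonneg_left (mul_le_mul_of_nonneg_right ?_ (norm_nonneg _))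
          (by linarith)
        refine mul_le_mul ha1 (add_le_add h7 h6) ?_ zero_le_one
        have : 0 < φ L := one_le_max_zero hφ L
        positivity
    _ = (1 / 2) ^ n * ‖v‖ := by
        rw [hδ]
        have hBne : B ≠ 0 := by linarith
        field_simp
        ring

/-- the state of the construction: `(B, r)` -/
abbrev Sta : Type := {p : ℝ × ℝ // 1 ≤ p.1 ∧ 0 < p.2}

/-- the sequences -/
theorem exists_seq (hφ : IsWeight φ) (hu : ¬ ∃ C : ℝ, ∀ t : ℝ, 0 ≤ t → t ≤ C * φ t) {E : Set ℝ}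
    {x₀ : ℝ} (hE : ∀ r : ℝ, 0 < r → ∃ x ∈ E, x ≠ x₀ ∧ |x - x₀| < r) :
    ∃ (L x C B : ℕ → ℝ), (∀ n, 0 < L n) ∧ (∀ n, x n ∈ E) ∧ (∀ n, x n ≠ x₀) ∧
      (∀ n, |x (n + 1) - x₀| < |x n - x₀| / 2) ∧ (∀ n, 0 ≤ C n) ∧
      (∀ n, 1 ≤ B n) ∧ (∀ n, B (n + 1) = B n * (1 + C n)) ∧
      (∀ n, ∀ v : Y, ‖mn hφ (L n) (x n) v‖ ≤ C n * ‖v‖) ∧
      ∀ n, ∀ a : ℝ, 0 ≤ a → a ≤ 1 → ∀ v : Y,
        B n * ‖mn hφ (L n) (x n) (df φ x₀ a v)‖ ≤ (1 / 2) ^ n * ‖v‖ := by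
  choose fL fx fC h1 h2 h3 h4 h5 h6 h7 using
    fun (n : ℕ) (s : Sta) => step hφ hu hE n s.2.1 s.2.2
  let nx : ℕ → Sta → Sta := fun n s => ⟨(s.1.1 * (1 + fC n s), |fx n s - x₀| / 2), by
    refine ⟨?_, ?_⟩
    · have := h5 n s
      have := s.2.1
      nlinarith
    · have := abs_pos.mpr (sub_ne_zero.mpr (h3 n s))
      linarith⟩
  let st : ℕ → Sta := fun n => Nat.rec (motive := fun _ => Sta) ⟨(1, 1), le_rfl, one_pos⟩ nx n
  have hst : ∀ n, st (n + 1) = nx n (st n) := fun n => rfl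
  refine ⟨fun n => fL n (st n), fun n => fx n (st n), fun n => fC n (st n), fun n => (st n).1.1,
    fun n => h1 n (st n), fun n => h2 n (st n), fun n => h3 n (st n), ?_, fun n => h5 n (st n),
    fun n => (st n).2.1, fun n => rfl, fun n => h6 n (st n), fun n => h7 n (st n)⟩
  intro n
  have := h4 (n + 1) (st (n + 1))
  exact this

/-- the products `∏ (1 - M_j)`, `N ≤ j < N + k` -/
def pr (hφ : IsWeight φ) (L x : ℕ → ℝ) (N : ℕ) : ℕ → (Y → Y)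
  | 0 => fun v => v
  | k + 1 => fun v => pr hφ L x N k v - mn hφ (L (N + k)) (x (N + k)) (pr hφ L x N k v)

theorem pr_df (hφ : IsWeight φ) (L x : ℕ → ℝ) (N k : ℕ) (x₀ : ℝ) {a : ℝ} (ha : 0 ≤ a) (v : Y) :
    pr hφ L x N k (df φ x₀ a v) = df φ x₀ a (pr hφ L x N k v) := by
  induction k with
  | zero => rfl
  | succ k ih =>
    simp only [pr]
    rw [ih]
    have : mn hφ (L (N + k)) (x (N + k)) (df φ x₀ a (pr hφ L x N k v)) =
        df φ x₀ a (mn hφ (L (N + k)) (x (N + k)) (pr hφ L x N k v)) := by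
      unfold df
      rw [map_sub, map_smul, mn_YW hφ _ _ ha]
    rw [this]
    unfold df
    rw [map_sub, smul_sub]
    abel

theorem pr_norm (hφ : IsWeight φ) {L x C B : ℕ → ℝ} (hC : ∀ n, 0 ≤ C n) (hB : ∀ n, 1 ≤ B n)
    (hB' : ∀ n, B (n + 1) = B n * (1 + C n))
    (hn : ∀ n, ∀ v : Y, ‖mn hφ (L n) (x n) v‖ ≤ C n * ‖v‖) (N k : ℕ) (v : Y) :
    ‖pr hφ L x N k v‖ ≤ B (N + k) * ‖v‖ := by
  induction k with
  | zero =>
    simp only [pr, Nat.add_zero]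
    have := hB N
    nlinarith [norm_nonneg v]
  | succ k ih =>
    simp only [pr]
    have h1 := hn (N + k) (pr hφ L x N k v)
    calc ‖pr hφ L x N k v - mn hφ (L (N + k)) (x (N + k)) (pr hφ L x N k v)‖
        ≤ ‖pr hφ L x N k v‖ + C (N + k) * ‖pr hφ L x N k v‖ :=
          (norm_sub_le _ _).trans (by linarith)
      _ = (1 + C (N + k)) * ‖pr hφ L x N k v‖ := by ring
      _ ≤ (1 + C (N + k)) * (B (N + k) * ‖v‖) :=
          mul_le_mul_of_nonneg_left ih (by linarith [hC (N + k)])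
      _ = B (N + (k + 1)) * ‖v‖ := by
          rw [show N + (k + 1) = N + k + 1 from rfl, hB']
          ring

theorem pr_chi_zero (hφ : IsWeight φ) (L x : ℕ → ℝ) (N : ℕ) {z : ℂ} (hz : z.im ≤ 0) {v : Y}
    (hv : chiW φ z v = 0) (k : ℕ) : chiW φ z (pr hφ L x N k v) = 0 := by
  induction k with
  | zero => exact hv
  | succ k ih =>
    simp only [pr]
    rw [map_sub, ih, chi_mn_zero hφ _ _ hz ih, sub_zero]

theorem pr_chi (hφ : IsWeight φ) {L : ℕ → ℝ} (hL : ∀ n, 0 < L n) (x : ℕ → ℝ) {N n : ℕ}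
    (hn : N ≤ n) (v : Y) {k : ℕ} (hk : n < N + k) :
    chiW φ (x n : ℂ) (pr hφ L x N k v) = 0 := by
  induction k with
  | zero => omega
  | succ k ih =>
    simp only [pr]
    rcases Nat.lt_or_ge n (N + k) with h | h
    · rw [map_sub, ih h, chi_mn_zero hφ _ _ (by simp) (ih h), sub_zero]
    · have e : n = N + k := by omega
      subst e
      rw [map_sub, chi_mn hφ (hL _), sub_self]

/-- the limit of the products on differences -/
theorem exists_limit (hφ : IsWeight φ) {L x C B : ℕ → ℝ} {x₀ : ℝ} (hL : ∀ n, 0 < L n)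
    (hC : ∀ n, 0 ≤ C n) (hB : ∀ n, 1 ≤ B n) (hB' : ∀ n, B (n + 1) = B n * (1 + C n))
    (hn : ∀ n, ∀ v : Y, ‖mn hφ (L n) (x n) v‖ ≤ C n * ‖v‖)
    (hd : ∀ n, ∀ a : ℝ, 0 ≤ a → a ≤ 1 → ∀ v : Y,
      B n * ‖mn hφ (L n) (x n) (df φ x₀ a v)‖ ≤ (1 / 2) ^ n * ‖v‖)
    {a : ℝ} (ha : 0 ≤ a) (ha1 : a ≤ 1) (v : Y) (N : ℕ) :
    ∃ G : Y, ‖G - df φ x₀ a v‖ ≤ 2 * (1 / 2) ^ N * ‖v‖ ∧ chiW φ (x₀ : ℂ) G = 0 ∧
      ∀ n, N ≤ n → chiW φ (x n : ℂ) G = 0 := by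
  set w : Y := df φ x₀ a v with hw
  have hstep : ∀ k, dist (pr hφ L x N k w) (pr hφ L x N (k + 1) w) ≤
      (1 / 2) ^ N * ‖v‖ * (1 / 2) ^ k := by
    intro k
    rw [dist_eq_norm]
    simp only [pr]
    rw [sub_sub_cancel, hw, pr_df hφ L x N k x₀ ha v]
    have h1 := hd (N + k) a ha ha1 (pr hφ L x N k v)
    have h2 := pr_norm hφ hC hB hB' hn N k v
    have hBp : 0 < B (N + k) := by linarith [hB (N + k)]
    have h3 : B (N + k) * ‖mn hφ (L (N + k)) (x (N + k)) (df φ x₀ a (pr hφ L x N k v))‖ ≤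
        B (N + k) * ((1 / 2) ^ N * ‖v‖ * (1 / 2) ^ k) := by
      calc _ ≤ (1 / 2) ^ (N + k) * ‖pr hφ L x N k v‖ := h1
        _ ≤ (1 / 2) ^ (N + k) * (B (N + k) * ‖v‖) :=
            mul_le_mul_of_nonneg_left h2 (by positivity)
        _ = _ := by
            rw [pow_add]
            ring
    exact le_of_mul_le_mul_left h3 hBp
  have hcau : CauchySeq (fun k => pr hφ L x N k w) :=
    cauchySeq_of_le_geometric (1 / 2) _ (by norm_num) hstep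
  obtain ⟨G, hG⟩ := cauchySeq_tendsto_of_complete hcau
  refine ⟨G, ?_, ?_, ?_⟩
  · have h1 := dist_le_of_le_geometric_of_tendsto₀ (1 / 2) _ (by norm_num) hstep hG
    simp only [pr] at h1
    rw [dist_comm, dist_eq_norm] at h1
    refine h1.trans (le_of_eq ?_)
    ring
  · have h1 : Tendsto (fun k => chiW φ (x₀ : ℂ) (pr hφ L x N k w)) atTop
        (𝓝 (chiW φ (x₀ : ℂ) G)) := ((chiW φ (x₀ : ℂ)).continuous.tendsto G).comp hG
    have h2 : ∀ k, chiW φ (x₀ : ℂ) (pr hφ L x N k w) = 0 := by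
      intro k
      apply pr_chi_zero hφ L x N (by simp)
      rw [hw, chi_df hφ (by simp) x₀ ha]
      simp
    simp only [h2] at h1
    exact tendsto_nhds_unique h1 tendsto_const_nhds
  · intro n hNn
    have h1 : Tendsto (fun k => chiW φ (x n : ℂ) (pr hφ L x N k w)) atTop
        (𝓝 (chiW φ (x n : ℂ) G)) := ((chiW φ (x n : ℂ)).continuous.tendsto G).comp hG
    have h2 : Tendsto (fun k => chiW φ (x n : ℂ) (pr hφ L x N k w)) atTop (𝓝 0) := by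
      refine tendsto_const_nhds.congr' ?_
      filter_upwards [eventually_gt_atTop n] with k hk
      exact (pr_chi hφ hL x hNn w (by omega)).symm
    exact tendsto_nhds_unique h1 h2

end

end Pool.Agent.WK.H18
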